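import Pool.Agent.K7.H34.PB.Tr
import Pool.Agent.Y227.TP.Main

set_option autoImplicit false

/-!
Flat bundles on curves over number fields: few primes with nonvanishing `p`-curvature.
-/

namespace Pool.Agent.K7.H34.PB

open Finset Polynomial Filter Topology Pool.Agent.W77.IM Pool.Agent.R927
open Pool.Agent.Y227.TP (Few BadPt ind M_ind ind_nonneg zero_of_inf)
open Pool.Agent.W401.Cheb (M M_mono M_congr_tendsto)
open Pool.Agent.W432.PC (PCurvZeroAt)
open Pool.Agent.Y227.SO (not_dvd_fact)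

universe u v w

/-- The `p`-curvature of `E` is nonzero at some closed point of residue characteristic `p`. -/
def BadAt {R : Type u} [CommRing R] {F : Type v} [Field F] [Algebra R F] {V : Type w}
    [AddCommGroup V] [Module F V] {A : Subalgebra R F} (nabla : V →+ V) (E : Submodule A V) (p : ℕ) :
    Prop :=
  ∃ 𝔪 : Ideal R, 𝔪.IsMaximal ∧ (p : R) ∈ 𝔪 ∧ ¬ VanishAt nabla E 𝔪

lemma few_of {Bad Bad' : ℕ → Prop} {ε ε' : ℝ} (hε : ε' < ε) (h : Few Bad' ε') (P : ℕ)
    (hP : ∀ p : ℕ, P < p → p.Prime → Bad p → Bad' p) : Few Bad ε := by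
  classical
  intro N₀
  have h4 := M_congr_tendsto (a := ind Bad)
    (b := fun p => if p ∣ (P + 1).factorial then 0 else ind Bad p)
    (Nat.factorial_pos (P + 1)) (fun p hp hpd => by rw [if_neg hpd])
  have h5 := h4.eventually (gt_mem_nhds (show (0 : ℝ) < ε - ε' by linarith))
  obtain ⟨N, hN, hN2, hN3⟩ :=
    (h.freq.and_eventually (h5.and (eventually_ge_atTop (max N₀ 2)))).exists
  have h6 : M (fun p => if p ∣ (P + 1).factorial then 0 else ind Bad p) N ≤ M (ind Bad') N := by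
    refine M_mono (fun p hp => ?_) N
    by_cases hpd : p ∣ (P + 1).factorial
    · rw [if_pos hpd]; exact ind_nonneg Bad' p
    · rw [if_neg hpd]
      unfold ind
      by_cases hb : p.Prime ∧ Bad p
      · rw [if_pos hb, if_pos ⟨hp, hP p (not_dvd_fact hp hpd) hp hb.2⟩]
      · rw [if_neg hb]
        split_ifs <;> norm_num
  have h7 : M (ind Bad) N < ε := by linarith
  refine ⟨N, (le_max_left _ _).trans hN3, ?_⟩
  have hpc : (0 : ℝ) < Nat.primeCounting N := by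
    have : Nat.primeCounting N ≠ 0 := by
      rw [Ne, Nat.primeCounting_eq_zero_iff]
      have := (le_max_right N₀ 2).trans hN3
      omega
    exact_mod_cast Nat.pos_of_ne_zero this
  rw [M_ind, div_lt_iff₀ hpc] at h7
  exact h7

variable {R : Type u} [CommRing R] [IsDomain R] [CharZero R] [Algebra.FiniteType ℤ R]
    {F : Type v} [Field F] [Algebra R F] {V : Type w}
    [AddCommGroup V] [Module F V] {n r : ℕ} {α : Fin n → R} {A : Fin n → Matrix (Fin r) (Fin r) R}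
    {δ : Derivation R F F} {x : F} {nabla : V →+ V} {v : Fin r → V}
    {T : R[X]} {E : Submodule (CoordRing x T R) V}

/-- Over an order in a number field: few bad primes for `E` are few bad primes for the system. -/
lemma Data.few [Algebra.IsAlgebraic ℤ R] (hd : Data δ x T nabla E v α A) {ε ε' : ℝ} (hε : ε' < ε)
    (h : Few (BadAt nabla E) ε') : Few (BadPt α A) ε := by
  obtain ⟨g, hg, htr⟩ := bad_transfer hd.inj hd.coord hd.ne hd.model hd.pullback
  obtain ⟨P₁, hP₁⟩ : ∃ P₁ : ℕ, ∀ p : ℕ, P₁ < p → p.Prime → ∀ (𝔪 : Ideal R) (_ : 𝔪.IsMaximal),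
      (p : R) ∈ 𝔪 → g ∉ 𝔪 := by
    by_contra hcon
    push Not at hcon
    exact hg (zero_of_inf g fun P₀ => by
      obtain ⟨p, h1, h2, 𝔪, h3, h4, h5⟩ := hcon P₀
      exact ⟨p, h1, h2, 𝔪, h3, h4, h5⟩)
  refine few_of hε h P₁ fun p hp hpp hb => ?_
  obtain ⟨𝔪, h𝔪, hpm, hc⟩ := hb
  exact ⟨𝔪, h𝔪, hpm, htr 𝔪 (hP₁ p hp hpp 𝔪 h𝔪 hpm) hc⟩

omit [Algebra.FiniteType ℤ R] in
/-- (H) implies that there are few bad primes. -/
lemma few_of_hypH [Algebra.IsAlgebraic ℤ R] {B : Subalgebra R F} {E : Submodule B V} {ε : ℝ}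
    (hε : 0 < ε) (h : HypH nabla E) : Few (BadAt nabla E) ε := by
  obtain ⟨g, hg, hV⟩ := h
  obtain ⟨P₁, hP₁⟩ : ∃ P₁ : ℕ, ∀ p : ℕ, P₁ < p → p.Prime → ∀ (𝔪 : Ideal R) (_ : 𝔪.IsMaximal),
      (p : R) ∈ 𝔪 → g ∉ 𝔪 := by
    by_contra hcon
    push Not at hcon
    exact hg (zero_of_inf g fun P₀ => by
      obtain ⟨p, h1, h2, 𝔪, h3, h4, h5⟩ := hcon P₀
      exact ⟨p, h1, h2, 𝔪, h3, h4, h5⟩)
  have h0 : Few (fun _ => False) (ε / 2) := by
    intro N₀
    refine ⟨max N₀ 2, le_max_left _ _, ?_⟩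
    have h1 : IsEmpty {p : ℕ // p ≤ max N₀ 2 ∧ p.Prime ∧ False} := ⟨fun p => p.2.2.2⟩
    rw [Nat.card_of_isEmpty, Nat.cast_zero]
    have hpc : (0 : ℝ) < Nat.primeCounting (max N₀ 2) := by
      have : Nat.primeCounting (max N₀ 2) ≠ 0 := by
        rw [Ne, Nat.primeCounting_eq_zero_iff]
        have := le_max_right N₀ 2
        omega
      exact_mod_cast Nat.pos_of_ne_zero this
    positivity
  refine few_of (by linarith) h0 P₁ fun p hp hpp hb => ?_
  obtain ⟨𝔪, h𝔪, hpm, hc⟩ := hb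
  exact hc (hV 𝔪 h𝔪 (hP₁ p hp hpp 𝔪 h𝔪 hpm))

end Pool.Agent.K7.H34.PB
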