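import Pool.Agent.Y227.TP.Main
import Pool.Agent.Y227.UD.Final
import Pool.Agent.TH295.FO.Rat

set_option autoImplicit false

/-!
Systems over finitely generated rings whose `p`-curvatures vanish at the closed points of a dense open
set: the exponents are rational and the residues are diagonalizable.
-/

open Polynomial

namespace Pool.Agent.K7.H34.PB

open Pool.Agent.W432.PC Pool.Agent.W432.TC Pool.Agent.W432.HK Pool.Agent.Y227.SS Pool.Agent.Y227.TP
open Pool.Agent.TH571.GP (HasAlgebraicSolutions)

universe u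

section

variable {R : Type u} [CommRing R] [IsDomain R] [CharZero R] {n r : ℕ}

omit [IsDomain R] [CharZero R] in
/-- a polynomial which vanishes at all the eigenvalues at a closed point kills the residue there -/
lemma entries_mem {K : Type u} [Field K] (φ : R →+* K) (c : Matrix (Fin r) (Fin r) K)
    (e : Fin r → K) {𝔪 : Ideal R} (hker : ∀ g, φ g = 0 → g ∈ 𝔪) (hc : c.det ≠ 0)
    (B : Matrix (Fin r) (Fin r) R) (he : ∀ i, (B.map φ).mulVec (c i) = e i • c i) (P : R[X])
    (hP : ∀ i, (P.map φ).eval (e i) = 0) (a b : Fin r) : aeval B P a b ∈ 𝔪 := by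
  apply hker
  have h2 : (aeval B P).map φ = 0 := by
    rw [map_aeval]
    have h3 : ∀ i, (aeval (B.map φ) (P.map φ)).mulVec (c i) = 0 := by
      intro i
      rw [aeval_mulVec _ _ _ (he i), hP, zero_smul]
    have h4 : aeval (B.map φ) (P.map φ) * c.transpose = 0 := by
      ext x i
      have := congrFun (h3 i) x
      rw [Matrix.mul_apply]
      simpa [Matrix.mulVec, dotProduct] using this
    have h5 : IsUnit c.transpose.det := by
      rw [Matrix.det_transpose]; exact isUnit_iff_ne_zero.mpr hc
    calc aeval (B.map φ) (P.map φ) =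
          aeval (B.map φ) (P.map φ) * (c.transpose * c.transpose⁻¹) := by
            rw [Matrix.mul_nonsing_inv _ h5, mul_one]
      _ = 0 := by rw [← Matrix.mul_assoc, h4, Matrix.zero_mul]
  have h3 := congrFun (congrFun h2 a) b
  rw [Matrix.map_apply, Matrix.zero_apply] at h3
  exact h3

/-- Rational exponents. -/
theorem exps_of_condII [Algebra.FiniteType ℤ R] {α : Fin n → R}
    {A : Fin n → Matrix (Fin r) (Fin r) R} (hα : ∀ i j, i ≠ j → IsUnit (α i - α j))
    (h : CondII α A) (B : Matrix (Fin r) (Fin r) R)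
    (hB : (∃ j, B = A j) ∨ B = ∑ j, A j) : ∃ lam : Fin r → ℚ, HasExponents B lam := by
  classical
  obtain ⟨g, hg, hc⟩ := h
  refine Pool.Agent.TH295.FO.hasExponents_of_residues B hg fun 𝔪 h𝔪 hgm p hp hpm => ?_
  obtain ⟨K, _, _, φ, e, c, hker, hdet, he⟩ := eig_point hα hp hpm (hc 𝔪 hgm) B hB
  have h1 : (∏ i ∈ Finset.range p, (X + C (i : R ⧸ 𝔪)) : (R ⧸ 𝔪)[X]) =
      (∏ i ∈ Finset.range p, (X + C ((i : ℕ) : R)) : R[X]).map (Ideal.Quotient.mk 𝔪) := by
    rw [Polynomial.map_prod]
    exact Finset.prod_congr rfl fun i _ => by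
      simp
  rw [h1, ← map_aeval]
  ext a b
  rw [Matrix.map_apply, Matrix.zero_apply, Ideal.Quotient.eq_zero_iff_mem]
  refine entries_mem φ c (fun i => ((e i : ℕ) : K)) hker hdet B he _ (fun i => ?_) a b
  rw [Polynomial.map_prod, eval_prod]
  have hpos : 0 < p := hp.pos
  refine Finset.prod_eq_zero (i := (p - e i % p) % p) ?_ ?_
  · exact Finset.mem_range.2 (Nat.mod_lt _ hpos)
  · rw [Polynomial.map_add, map_X, map_C, map_natCast, eval_add, eval_X, eval_C]
    have h2 : ((e i + (p - e i % p) % p : ℕ) : K) = 0 := by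
      rw [CharP.cast_eq_zero_iff K p]
      have h3 := Nat.mod_add_div (e i) p
      have h4 : e i % p < p := Nat.mod_lt _ hpos
      rcases Nat.eq_zero_or_pos (e i % p) with h5 | h5
      · rw [h5, Nat.sub_zero, Nat.mod_self, add_zero]
        exact Nat.dvd_of_mod_eq_zero h5
      · rw [Nat.mod_eq_of_lt (by omega : p - e i % p < p)]
        refine ⟨e i / p + 1, ?_⟩
        rw [mul_add, mul_one]
        omega
    exact_mod_cast h2

/-- If the residue is not diagonalizable, almost all the `p`-curvatures are nonzero. -/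
theorem diag_or {α : Fin n → R}
    {A : Fin n → Matrix (Fin r) (Fin r) R} (hα : ∀ i j, i ≠ j → IsUnit (α i - α j))
    (B : Matrix (Fin r) (Fin r) R)
    (hB : (∃ j, B = A j) ∨ B = ∑ j, A j) (lam : Fin r → ℚ) (hlam : HasExponents B lam) :
    DiagExps B lam ∨ ∃ g : R, g ≠ 0 ∧ ∀ 𝔪 : Ideal R, ∀ _ : 𝔪.IsMaximal, g ∉ 𝔪 →
      ∀ p : ℕ, p.Prime → (p : R) ∈ 𝔪 → ¬ PCurvZeroAt α A 𝔪 := by
  classical
  have hFz : CharZero (FractionRing R) := charZero_fraction (R := R)
  set Q := Finset.univ.image lam with hQ
  -- a common denominator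
  set N : ℕ := ∏ l, (lam l).den with hN
  have hN0 : 0 < N := Finset.prod_pos fun l _ => (lam l).den_pos
  have hNq : ∀ q ∈ Q, ∃ m : ℤ, (N : ℚ) * q = m := by
    intro q hq
    obtain ⟨l, -, rfl⟩ := Finset.mem_image.mp hq
    obtain ⟨k, hk⟩ := Finset.dvd_prod_of_mem (fun l => (lam l).den) (Finset.mem_univ l)
    refine ⟨k * (lam l).num, ?_⟩
    rw [hN, hk]
    push_cast
    have := Rat.den_mul_eq_num (lam l)
    rw [mul_comm ((lam l).den : ℚ) k, mul_assoc, this]
  choose! m hm using hNq
  set P : R[X] := ∏ q ∈ Q, (C (N : R) * X - C ((m q : ℤ) : R)) with hP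
  have hNF : (N : FractionRing R) ≠ 0 := by exact_mod_cast hN0.ne'
  have hPF : P.map (algebraMap R (FractionRing R)) =
      C ((N : FractionRing R) ^ Q.card) * ∏ q ∈ Q, (X - C ((q : ℚ) : FractionRing R)) := by
    have h1 : (C ((N : FractionRing R) ^ Q.card) : (FractionRing R)[X]) =
        ∏ _q ∈ Q, C (N : FractionRing R) := by
      rw [Finset.prod_const, C_pow]
    rw [h1, ← Finset.prod_mul_distrib, hP, Polynomial.map_prod]
    refine Finset.prod_congr rfl fun q hq => ?_
    have h2 : (N : FractionRing R) * ((q : ℚ) : FractionRing R) = ((m q : ℤ) : FractionRing R) := by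
      exact_mod_cast congrArg (fun x : ℚ => (x : FractionRing R)) (hm q hq)
    have h3 : (C (N : R) * X - C ((m q : ℤ) : R)).map (algebraMap R (FractionRing R)) =
        C (N : FractionRing R) * X - C ((m q : ℤ) : FractionRing R) := by simp
    rw [h3, mul_sub, ← C_mul, h2]
  -- the polynomial relation for the characteristic polynomial
  have hpoly : C ((N : R) ^ r) * B.charpoly = ∏ l, (C (N : R) * X - C ((m (lam l) : ℤ) : R)) := by
    apply map_injective _ (IsFractionRing.injective R (FractionRing R))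
    have hlam' := hlam
    unfold HasExponents at hlam'
    rw [Polynomial.map_mul, hlam', Polynomial.map_prod]
    have h1 : (C ((N : R) ^ r)).map (algebraMap R (FractionRing R)) =
        ∏ _l : Fin r, (C (N : FractionRing R) : (FractionRing R)[X]) := by
      rw [Polynomial.map_C, map_pow, map_natCast, Finset.prod_const, Finset.card_univ,
        Fintype.card_fin, C_pow]
    rw [h1, ← Finset.prod_mul_distrib]
    refine Finset.prod_congr rfl fun l _ => ?_
    have h2 : (N : FractionRing R) * ((lam l : ℚ) : FractionRing R) =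
        ((m (lam l) : ℤ) : FractionRing R) := by
      exact_mod_cast congrArg (fun x : ℚ => (x : FractionRing R))
        (hm (lam l) (Finset.mem_image_of_mem _ (Finset.mem_univ l)))
    have h3 : (C (N : R) * X - C ((m (lam l) : ℤ) : R)).map (algebraMap R (FractionRing R)) =
        C (N : FractionRing R) * X - C ((m (lam l) : ℤ) : FractionRing R) := by simp
    rw [h3, mul_sub, ← C_mul, h2]
  by_cases hzero : aeval B P = 0
  · left
    refine ⟨hlam, ?_⟩
    have h1 : aeval (B.map (algebraMap R (FractionRing R)))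
        (P.map (algebraMap R (FractionRing R))) = 0 := by
      rw [← map_aeval, hzero]
      ext a b
      simp
    rw [hPF, map_mul, aeval_C] at h1
    have h2 : IsUnit (algebraMap (FractionRing R) (Matrix (Fin r) (Fin r) (FractionRing R))
        ((N : FractionRing R) ^ Q.card)) :=
      (isUnit_iff_ne_zero.mpr (pow_ne_zero _ hNF)).map _
    exact (h2.mul_right_eq_zero).mp h1
  · right
    obtain ⟨a, b, hab⟩ : ∃ a b, aeval B P a b ≠ 0 := by
      by_contra hcon
      push Not at hcon
      exact hzero (by ext a b; rw [hcon, Matrix.zero_apply])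
    refine ⟨_, hab, fun 𝔪 hmax hgm p hp hpm hpc => ?_⟩
    obtain ⟨K, _, _, φ, e, c, hker, hc, he⟩ := eig_point hα hp hpm hpc B hB
    refine hgm ?_
    refine entries_mem φ c (fun i => ((e i : ℕ) : K)) hker hc B he P (fun i => ?_) a b
    have h2 := charpoly_of_eigenrows (B.map φ) c (fun i => ((e i : ℕ) : K)) he hc
    have h3 : (B.map φ).charpoly.eval ((e i : ℕ) : K) = 0 := by
      rw [h2, eval_prod]
      exact Finset.prod_eq_zero (Finset.mem_univ i) (by rw [eval_sub, eval_X, eval_C, sub_self])
    have h4 := congrArg (fun q : R[X] => (q.map φ).eval ((e i : ℕ) : K)) hpoly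
    simp only [Polynomial.map_mul, eval_mul, ← Matrix.charpoly_map, h3, mul_zero,
      Polynomial.map_prod, eval_prod] at h4
    obtain ⟨l, -, hl⟩ := Finset.prod_eq_zero_iff.mp h4.symm
    rw [hP, Polynomial.map_prod, eval_prod]
    exact Finset.prod_eq_zero (Finset.mem_image_of_mem _ (Finset.mem_univ l)) hl

end

end Pool.Agent.K7.H34.PB
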