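import Pool.Agent.K7.H34.PB.Few
import Pool.Agent.K7.H34.PB.Katz

set_option autoImplicit false

/-!
The structure theorem for systems on the line, for arbitrary exponents.
-/

namespace Pool.Agent.K7.H34.PB

open Pool.Agent.W432.PC Pool.Agent.W432.TC Pool.Agent.W432.HK Pool.Agent.Y227.SS Pool.Agent.Y227.TP
open Pool.Agent.R927
open Pool.Agent.TH571.GP (HasAlgebraicSolutions)

universe u v w

/-- The `A j` and `∑ j, A j` are diagonalizable with rational eigenvalues `lam j l`, `phi l` (the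
exponents); for some common denominator `N` all the multiples of the exponents by integers prime to `N`
are the weights of semistable parabolic bundles of parabolic degree zero, and of stable ones if the system
is irreducible over every field which contains `R` (`ConjGood`); the exponents are on one of the torsion
cosets in `𝒟`; and if `n ≥ 2`, `alg` holds or the exponents are on one of the cosets in `𝒟'`. -/
def Structured {R : Type u} [CommRing R] [IsDomain R] [CharZero R] {n r : ℕ} (α : Fin n → R)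
    (A : Fin n → Matrix (Fin r) (Fin r) R)
    (𝒟 𝒟' : Finset (AddSubgroup (ExponentIndex n r → ℤ) × (ExponentIndex n r → ℚ))) (alg : Prop) :
    Prop :=
  ∃ (lam : Fin n → Fin r → ℚ) (phi : Fin r → ℚ), (∀ j, DiagExps (A j) (lam j)) ∧
    DiagExps (∑ j, A j) phi ∧ (∃ N, CommonDen lam phi N ∧ ConjGood α A lam phi N) ∧
    (∃ C ∈ 𝒟, InCoset C.1 C.2 (pt lam phi)) ∧
    (2 ≤ n → alg ∨ ∃ C ∈ 𝒟', InCoset C.1 C.2 (pt lam phi))

/-- a set of classes, with a nonzero `g` -/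
def BadG {R : Type u} [CommRing R] {n r : ℕ} (α : Fin n → R)
    (A : Fin n → Matrix (Fin r) (Fin r) R) (N : ℕ) (ε : ℝ) : Prop :=
  ∃ (S : Finset (ZMod N)ˣ) (g : R) (P₀ : ℕ), ε * N.totient ≤ S.card ∧ g ≠ 0 ∧
    ∀ p : ℕ, p.Prime → P₀ < p → (∃ v ∈ S, ((p : ℕ) : ZMod N) = ((v : (ZMod N)ˣ) : ZMod N)) →
      ∀ (𝔪 : Ideal R) [𝔪.IsMaximal], (p : R) ∈ 𝔪 → g ∉ 𝔪 → ¬ PCurvZeroAt α A 𝔪

lemma BadG.mono {R : Type u} [CommRing R] {n r : ℕ} {α : Fin n → R}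
    {A : Fin n → Matrix (Fin r) (Fin r) R} {N : ℕ} {ε ε' : ℝ} (h : BadG α A N ε) (hε : ε' ≤ ε) :
    BadG α A N ε' := by
  obtain ⟨S, g, P₀, h1, h2⟩ := h
  exact ⟨S, g, P₀, (mul_le_mul_of_nonneg_right hε (Nat.cast_nonneg _)).trans h1, h2⟩

lemma BadG.not_condII {R : Type u} [CommRing R] [IsDomain R] [CharZero R] [Algebra.FiniteType ℤ R]
    {n r : ℕ} {α : Fin n → R} {A : Fin n → Matrix (Fin r) (Fin r) R} {N : ℕ} {ε : ℝ} (hN : 0 < N)
    (hε : 0 < ε) (h : BadG α A N ε) : ¬ CondII α A := by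
  obtain ⟨S, g, P₀, h1, h2, h3⟩ := h
  have hb : BadClasses α A N ε g := ⟨S, P₀, h1, h3⟩
  exact hb.not_condII hN hε h2

lemma BadG.not_few {R : Type u} [CommRing R] [IsDomain R] [CharZero R] [Algebra.FiniteType ℤ R]
    {n r : ℕ} {α : Fin n → R} {A : Fin n → Matrix (Fin r) (Fin r) R} {N : ℕ} {ε : ℝ} (hN : 0 < N)
    (hε : 0 < ε) (h : BadG α A N ε) : ¬ Few (BadPt α A) (ε / 2) := by
  obtain ⟨S, g, P₀, hS, hg, hP⟩ := h
  obtain ⟨P₁, hP₁⟩ := exists_closed_point R hg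
  refine not_few_of_classes hN hε S (max P₀ P₁) hS (fun p hp hpP hpS => ?_)
  rw [max_lt_iff] at hpP
  obtain ⟨𝔪, hmax, hpm, h3⟩ := hP₁ p hp hpP.2
  exact ⟨𝔪, hmax, hpm, hP p hp hpP.1 hpS 𝔪 hpm h3⟩

theorem sys_structure (n r : ℕ) :
    ∃ (ε : ℝ) (𝒟 𝒟' : Finset (AddSubgroup (ExponentIndex n r → ℤ) × (ExponentIndex n r → ℚ))),
      0 < ε ∧
      (∀ C ∈ 𝒟, ∀ z : ExponentIndex n r → ℝ, InCoset C.1 C.2 z →
        SemistableWeights ℂ (fun j l => z (Sum.inl (j, l))) (fun l => z (Sum.inr l))) ∧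
      (∀ C ∈ 𝒟', ∃ m : Fin (r + 1) → ExponentIndex n r → ℤ,
        LinearIndependent ℤ m ∧ ∀ k, m k ∈ C.1) ∧
      ∀ (R : Type u) [CommRing R] [IsDomain R] [CharZero R] [Algebra.FiniteType ℤ R]
        (α : Fin n → R) (A : Fin n → Matrix (Fin r) (Fin r) R),
        (∀ i j, i ≠ j → IsUnit (α i - α j)) →
        (∀ lam phi N, (∀ j, HasExponents (A j) (lam j)) → HasExponents (∑ j, A j) phi →
          CommonDen lam phi N → Structured α A 𝒟 𝒟' (HasAlgebraicSolutions α A) ∨ BadG α A N ε) ∧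
        (CondII α A → Structured α A 𝒟 𝒟' (HasAlgebraicSolutions α A)) ∧
        (Algebra.IsAlgebraic ℤ R → Few (BadPt α A) (ε / 2) →
          Structured α A 𝒟 𝒟' (HasAlgebraicSolutions α A)) := by
  classical
  obtain ⟨ε₀, 𝒟, hε₀, h𝒟, h₀⟩ := uniform.{u} n r
  obtain ⟨ε₁, 𝒟₁, hε₁, h𝒟₁, h₁⟩ := density_sys.{u} n r
  obtain ⟨ε₂, 𝒟', hε₂, h𝒟', h₂⟩ : ∃ (ε : ℝ)
      (𝒟' : Finset (AddSubgroup (ExponentIndex n r → ℤ) × (ExponentIndex n r → ℚ))), 0 < ε ∧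
      (∀ C ∈ 𝒟', ∃ m : Fin (r + 1) → ExponentIndex n r → ℤ,
        LinearIndependent ℤ m ∧ ∀ k, m k ∈ C.1) ∧
      ∀ (R : Type u) [CommRing R] [IsDomain R] [CharZero R] [Algebra.FiniteType ℤ R]
        (α : Fin n → R) (A : Fin n → Matrix (Fin r) (Fin r) R)
        (lam : Fin n → Fin r → ℚ) (phi : Fin r → ℚ) (N : ℕ), 2 ≤ n →
        (∀ i j, i ≠ j → IsUnit (α i - α j)) →
        (∀ j, HasExponents (A j) (lam j)) → HasExponents (∑ j, A j) phi → CommonDen lam phi N →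
        ¬ BadG α A N ε → HasAlgebraicSolutions α A ∨
          ∃ C ∈ 𝒟', InCoset C.1 C.2 (pt lam phi) := by
    by_cases hn : 2 ≤ n
    · obtain ⟨ε, 𝒟', hε, h𝒟', h'⟩ := Pool.Agent.Y227.UD.final.{u} n r hn
      refine ⟨ε, 𝒟', hε, h𝒟', ?_⟩
      intro R _ _ _ _ α A lam phi N _ hα hlam hphi hN hnb
      rcases h' R α A lam phi N hα hlam hphi hN.1 hN.2.1 hN.2.2 with h1 | ⟨h1, -⟩ | ⟨h1, -⟩
      · exact Or.inl h1
      · exact absurd h1 hnb
      · exact Or.inr h1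
    · exact ⟨1, ∅, one_pos, by simp, fun R _ _ _ _ α A lam phi N h => absurd h hn⟩
  set ε : ℝ := min (min ε₀ ε₂) (min ε₁ 1) with hεdef
  have hε : 0 < ε := lt_min (lt_min hε₀ hε₂) (lt_min hε₁ one_pos)
  have e0 : ε ≤ ε₀ := (min_le_left _ _).trans (min_le_left _ _)
  have e2 : ε ≤ ε₂ := (min_le_left _ _).trans (min_le_right _ _)
  have e1 : ε ≤ ε₁ := (min_le_right _ _).trans (min_le_left _ _)
  have e3 : ε ≤ 1 := (min_le_right _ _).trans (min_le_right _ _)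
  refine ⟨ε, 𝒟, 𝒟', hε, h𝒟, h𝒟', ?_⟩
  intro R _ _ _ _ α A hα
  have key : ∀ lam phi N, (∀ j, HasExponents (A j) (lam j)) → HasExponents (∑ j, A j) phi →
      CommonDen lam phi N → Structured α A 𝒟 𝒟' (HasAlgebraicSolutions α A) ∨ BadG α A N ε := by
    intro lam phi N hlam hphi hN
    have : NeZero N := ⟨hN.1.ne'⟩
    refine or_iff_not_imp_right.mpr fun hnb => ?_
    have hall : (∃ g : R, g ≠ 0 ∧ ∀ 𝔪 : Ideal R, ∀ _ : 𝔪.IsMaximal, g ∉ 𝔪 →
        ∀ p : ℕ, p.Prime → (p : R) ∈ 𝔪 → ¬ PCurvZeroAt α A 𝔪) → False := by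
      rintro ⟨g, hg, h⟩
      refine hnb ⟨Finset.univ, g, 0, ?_, hg, fun p hp _ _ 𝔪 h𝔪 hpm hgm => h 𝔪 h𝔪 hgm p hp hpm⟩
      rw [Finset.card_univ, ZMod.card_units_eq_totient]
      exact mul_le_of_le_one_left (Nat.cast_nonneg _) e3
    have hd1 : ∀ j, DiagExps (A j) (lam j) := fun j =>
      (diag_or hα (A j) (Or.inl ⟨j, rfl⟩) (lam j) (hlam j)).resolve_right hall
    have hd2 : DiagExps (∑ j, A j) phi :=
      (diag_or hα _ (Or.inr rfl) phi hphi).resolve_right hall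
    obtain ⟨h3, h4⟩ := h₀ R α A lam phi N hα hlam hphi hN.1 hN.2.1 hN.2.2
    rcases h3 with ⟨h3, h3'⟩ | ⟨⟨S, P₀, hS, hP⟩, -⟩
    · refine ⟨lam, phi, hd1, hd2, ⟨N, hN, fun a ha => ⟨h3' a ha, fun hirr => ?_⟩⟩, h3, fun hn => ?_⟩
      · rcases h4 hirr with h5 | ⟨⟨g, hg, S, P₀, hS, hP⟩, -⟩
        · exact h5 a ha
        · exact absurd (BadG.mono ⟨S, g, P₀, hS, hg, hP⟩ e0) hnb
      · exact h₂ R α A lam phi N hn hα hlam hphi hN fun h => hnb (h.mono e2)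
    · exact absurd (BadG.mono ⟨S, 1, P₀, hS, one_ne_zero, hP⟩ e0) hnb
  refine ⟨key, fun hII => ?_, fun hRalg hfew => ?_⟩
  · choose lam hlam using fun j => exps_of_condII hα hII (A j) (Or.inl ⟨j, rfl⟩)
    obtain ⟨phi, hphi⟩ := exps_of_condII hα hII (∑ j, A j) (Or.inr rfl)
    obtain ⟨N, hN⟩ := exists_commonDen lam phi
    exact (key lam phi N hlam hphi hN).resolve_right fun h => h.not_condII hN.1 hε hII
  · have := hRalg
    obtain ⟨lam, phi, hlam, hphi, -, -⟩ := (h₁ R α A hα).2 (hfew.mono (by linarith))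
    obtain ⟨N, hN⟩ := exists_commonDen lam phi
    exact (key lam phi N (fun j => (hlam j).1) hphi.1 hN).resolve_right
      fun h => h.not_few hN.1 hε hfew

lemma Structured.imp {R : Type u} [CommRing R] [IsDomain R] [CharZero R] {n r : ℕ} {α : Fin n → R}
    {A : Fin n → Matrix (Fin r) (Fin r) R}
    {𝒟 𝒟' : Finset (AddSubgroup (ExponentIndex n r → ℤ) × (ExponentIndex n r → ℚ))} {a b : Prop}
    (h : Structured α A 𝒟 𝒟' a) (hab : a → b) : Structured α A 𝒟 𝒟' b := by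
  obtain ⟨lam, phi, h1, h2, h3, h4, h5⟩ := h
  exact ⟨lam, phi, h1, h2, h3, h4, fun hn => (h5 hn).imp_left hab⟩

end Pool.Agent.K7.H34.PB
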