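import Pool.Agent.R927.PB4
import Pool.Agent.TH571.GP.Eig

set_option autoImplicit false

/-!
Flat bundles on curves which contain the pull-back of a Fuchsian system: algebraic sections, and the
transfer of the nonvanishing of the `p`-curvatures.
-/

namespace Pool.Agent.K7.H34.PB

open Finset Polynomial Pool.Agent.W77.IM Pool.Agent.R927
open Pool.Agent.W432.PC (PCurvZeroAt CondII)
open Pool.Agent.TH571.GP (HasAlgebraicSolutions)

universe u v w

section defs

variable {R : Type u} [CommRing R] {F : Type v} [Field F] [Algebra R F] {V : Type w}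
  [AddCommGroup V] [Module F V]

/-- The flat subbundle spanned by the `v l` has a full set of algebraic sections: it is the direct sum of
the lines spanned by `w k`, and the products of `w k` with the `N`-th root of `u k` are flat:
`N ∇ (w k) = - (δ (u k) / u k) w k`. -/
def AlgSections (δ : Derivation R F F) (nabla : V →+ V) {r : ℕ} (v : Fin r → V) : Prop :=
  ∃ (N : ℕ) (w : Fin r → V) (u : Fin r → F), 0 < N ∧ LinearIndependent F w ∧
    (∀ k, w k ∈ Submodule.span F (Set.range v)) ∧
    ∀ k, u k ≠ 0 ∧ (N : F) • nabla (w k) = -(δ (u k) / u k) • w k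

/-- `(V, ∇)` has a full set of algebraic sections: `V` has a basis `w` such that the products of `w k` with
the `N`-th root of `u k` are flat, `N ∇ (w k) = - (δ (u k) / u k) w k`. -/
def FullSections (δ : Derivation R F F) (nabla : V →+ V) (r : ℕ) : Prop :=
  ∃ (N : ℕ) (w : Fin r → V) (u : Fin r → F), 0 < N ∧ LinearIndependent F w ∧
    Submodule.span F (Set.range w) = ⊤ ∧
    ∀ k, u k ≠ 0 ∧ (N : F) • nabla (w k) = -(δ (u k) / u k) • w k

/-- There are a set `S` of residue classes modulo `N`, prime to `N`, of proportion at least `ε`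
(`ε * φ(N) ≤ #S`) and a nonzero `g ∈ R` such that the `p`-curvature of `E` is nonzero at every closed
point of `Spec R[1/g]` whose residue characteristic is a large prime `p` in one of these classes. -/
def NonzeroProportion {A : Subalgebra R F} (nabla : V →+ V) (E : Submodule A V) (N : ℕ) (ε : ℝ) :
    Prop :=
  ∃ (S : Finset (ZMod N)ˣ) (g : R) (P₀ : ℕ), ε * N.totient ≤ S.card ∧ g ≠ 0 ∧
    ∀ p : ℕ, p.Prime → P₀ < p → (∃ v ∈ S, ((p : ℕ) : ZMod N) = ((v : (ZMod N)ˣ) : ZMod N)) →
      ∀ 𝔪 : Ideal R, 𝔪.IsMaximal → (p : R) ∈ 𝔪 → g ∉ 𝔪 → ¬ VanishAt nabla E 𝔪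

/-- A flat bundle on a curve which contains the pull-back of a Fuchsian system, all defined over the
domain `R` of characteristic zero and of finite type over `ℤ`: `F` is the function field of the curve (a
field containing `R`), `δ` an `R`-linear derivation of `F` with `δ x = 1`, `V` a vector space over `F` with
a connection `∇` and `E` a finitely generated `∇`-stable `R[x, 1/T]`-module in `V` which generates `V` over
the rational functions of `x` (`IsModel`: a flat bundle on the part `T ≠ 0` of the curve, spread out over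
`Spec R`); the `v l` span in `V` the pull-back of the system `d/dx - ∑ j, A j / (x - α j)`
(`HasPullback`), and the `α i - α j`, `i ≠ j`, are invertible. -/
structure Data {n r : ℕ} (δ : Derivation R F F) (x : F) (T : R[X])
    (nabla : V →+ V) (E : Submodule (CoordRing x T R) V) (v : Fin r → V) (α : Fin n → R)
    (A : Fin n → Matrix (Fin r) (Fin r) R) : Prop where
  inj : Function.Injective (algebraMap R F)
  coord : δ x = 1
  ne : T ≠ 0
  model : IsModel x T nabla E
  pullback : HasPullback α A δ x nabla v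
  unit : ∀ i j, i ≠ j → IsUnit (α i - α j)

end defs

/-- logarithmic derivative of a product of powers -/
lemma logDer {F : Type v} [Field F] {R : Type u} [CommRing R] [Algebra R F] (δ : Derivation R F F)
    {ι : Type*} (s : Finset ι) (f : ι → F) (hf : ∀ i ∈ s, f i ≠ 0) (m : ι → ℤ) :
    δ (∏ i ∈ s, f i ^ m i) = (∏ i ∈ s, f i ^ m i) * ∑ i ∈ s, (m i : F) * (δ (f i) / f i) := by
  classical
  induction s using Finset.induction_on with
  | empty => simp
  | insert i s hi ih =>
    rw [prod_insert hi, sum_insert hi, Derivation.leibniz, ih fun j hj => hf j (mem_insert_of_mem hj),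
      Derivation.leibniz_zpow]
    have h0 : f i ≠ 0 := hf i (mem_insert_self _ _)
    simp only [smul_eq_mul, zsmul_eq_mul]
    rw [zpow_sub_one₀ h0]
    field_simp
    ring

section

variable {R : Type u} [CommRing R] [IsDomain R] [CharZero R] [Algebra.FiniteType ℤ R]
    {F : Type v} [Field F] [Algebra R F] {V : Type w}
    [AddCommGroup V] [Module F V] {n r : ℕ} {α : Fin n → R} {A : Fin n → Matrix (Fin r) (Fin r) R}
    {δ : Derivation R F F} {x : F} {nabla : V →+ V} {v : Fin r → V}
    {T : R[X]} {E : Submodule (CoordRing x T R) V}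

omit [Algebra.FiniteType ℤ R] in
/-- Algebraic solutions of the system give algebraic sections of the pull-back. -/
theorem algSections_of (hRF : Function.Injective (algebraMap R F)) (hx : δ x = 1)
    (hpb : HasPullback α A δ x nabla v) (h : HasAlgebraicSolutions α A) :
    AlgSections δ nabla v := by
  classical
  obtain ⟨ν, Z, hdet, hZ⟩ := h
  have hne : ∀ q : R[X], q ≠ 0 → (aeval x q : F) ≠ 0 := fun q hq =>
    aeval_ne_zero hRF (δ.restrictScalars ℤ) (fun a => δ.map_algebraMap a) x hx hq
  have hα : ∀ j, x - algebraMap R F (α j) ≠ 0 := by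
    intro j
    have h1 := hne (X - C (α j)) (X_sub_C_ne_zero _)
    rwa [map_sub, aeval_X, aeval_C] at h1
  have hTα0 : Pool.Agent.W432.PC.T α ≠ 0 :=
    (monic_prod_of_monic _ _ fun i _ => monic_X_sub_C _).ne_zero
  let K := FractionRing R
  have hRK : Function.Injective (algebraMap R K) := IsFractionRing.injective R K
  have hchK : CharZero K := charZero_of_injective_algebraMap (R := R) hRK
  let ι : K →+* F := IsFractionRing.lift hRF
  have hιR : ∀ a, ι (algebraMap R K a) = algebraMap R F a := fun a =>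
    IsFractionRing.lift_algebraMap hRF a
  have hιc : ι.comp (algebraMap R K) = algebraMap R F := RingHom.ext hιR
  have hchF : CharZero F := charZero_of_injective_algebraMap (R := R) hRF
  have hι : ∀ c, δ (ι c) = 0 := by
    intro c
    obtain ⟨a, b, hb, hc⟩ := IsFractionRing.div_surjective (A := R) c
    have hb0 : algebraMap R K b ≠ 0 := by
      rw [Ne, map_eq_zero_iff _ hRK]
      exact nonZeroDivisors.ne_zero hb
    have h1 : c * algebraMap R K b = algebraMap R K a := by rw [← hc, div_mul_cancel₀ _ hb0]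
    have h2 := congrArg (fun z => δ (ι z)) h1
    simp only [map_mul, Derivation.leibniz, hιR, Derivation.map_algebraMap, smul_eq_mul, mul_zero,
      zero_add] at h2
    have h3 : algebraMap R F b ≠ 0 := by
      rw [← hιR, Ne, map_eq_zero]; exact hb0
    exact (mul_eq_zero.mp h2).resolve_left h3
  have he : Function.Injective (eval₂RingHom ι x) :=
    eval_injective (δ.restrictScalars ℤ) ι x hι hx
  have hevR : ∀ f : R[X], eval₂RingHom ι x (f.map (algebraMap R K)) = aeval x f := by
    intro f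
    rw [coe_eval₂RingHom, eval₂_map, hιc]
    rfl
  -- the derivative of the values
  have hder : ∀ f : K[X], δ (eval₂RingHom ι x f) = eval₂RingHom ι x (derivative f) := by
    intro f
    induction f using Polynomial.induction_on' with
    | add p q hp hq => rw [map_add, map_add, map_add, map_add, hp, hq]
    | monomial m a =>
      rw [derivative_monomial, coe_eval₂RingHom, eval₂_monomial, eval₂_monomial,
        Derivation.leibniz, hι, smul_zero, add_zero, Derivation.leibniz_pow, hx, map_mul, map_natCast]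
      simp only [smul_eq_mul, nsmul_eq_mul, mul_one]
      ring
  set ev := eval₂RingHom ι x with hev
  obtain ⟨t, ht⟩ : ∃ t : F, t = aeval x (Pool.Agent.W432.PC.T α) := ⟨_, rfl⟩
  have ht0 : t ≠ 0 := by rw [ht]; exact hne _ hTα0
  obtain ⟨b, hb⟩ : ∃ b : Fin r → Fin r → F, ∀ i l, b i l = aeval x (Pool.Agent.W432.PC.B α A i l) :=
    ⟨_, fun _ _ => rfl⟩
  have hTe : ev (Pool.Agent.W432.PC.T (fun j => algebraMap R K (α j))) = t := by
    rw [← Pool.Agent.W432.PC.T_map, hevR, ht]
  have hBe : ∀ i l, ev (Pool.Agent.W432.PC.B (fun j => algebraMap R K (α j))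
      (fun j => (A j).map (algebraMap R K)) i l) = b i l := by
    intro i l
    rw [← Pool.Agent.W432.PC.B_map, Matrix.map_apply, coe_mapRingHom, hevR, hb]
  have hTce : ∀ j, ev (Pool.Agent.W432.PC.Tc (fun j => algebraMap R K (α j)) j) =
      t * (x - algebraMap R F (α j))⁻¹ := by
    intro j
    rw [← Pool.Agent.W432.PC.Tc_map, hevR]
    have h0 : Pool.Agent.W432.PC.T α = (X - C (α j)) * Pool.Agent.W432.PC.Tc α j :=
      (mul_prod_erase univ (fun i => X - C (α i)) (mem_univ j)).symm
    have := hα j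
    rw [ht, h0, map_mul, map_sub, aeval_X, aeval_C]
    field_simp
  obtain ⟨z, hz⟩ : ∃ z : Matrix (Fin r) (Fin r) F, ∀ i k, z i k = ev (Z i k) :=
    ⟨Matrix.of fun i k => ev (Z i k), fun _ _ => rfl⟩
  have hzdet : z.det ≠ 0 := by
    have h1 : z = (ev.mapMatrix) Z := by
      ext i k
      rw [hz]
      rfl
    rw [h1, ← RingHom.map_det]
    intro h2
    exact hdet (he (by rw [h2, map_zero]))
  obtain ⟨s, hs⟩ : ∃ s : Fin r → F, ∀ k, s k = ∑ j, ((ν k j : ℚ) : F) *
      (x - algebraMap R F (α j))⁻¹ := ⟨_, fun _ => rfl⟩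
  have hιq : ∀ q : ℚ, ι ((q : ℚ) : K) = (q : F) := fun q => map_ratCast ι q
  have hsys : ∀ k i, t * δ (z i k) + t * s k * z i k = ∑ l, b i l * z l k := by
    intro k i
    have h1 := congrArg ev (hZ k i)
    rw [map_add, map_mul, map_mul, map_sum] at h1
    have h2 : ∑ j, ev (C ((ν k j : ℚ) : K) * Pool.Agent.W432.PC.Tc (fun j => algebraMap R K (α j)) j) =
        t * s k := by
      rw [hs, mul_sum]
      refine sum_congr rfl fun j _ => ?_
      rw [map_mul, hTce, hev, coe_eval₂RingHom, eval₂_C, hιq]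
      ring
    have h3 : ev ((Pool.Agent.W432.PC.B (fun j => algebraMap R K (α j))
        (fun j => (A j).map (algebraMap R K))).mulVec (fun i' => Z i' k) i) =
        ∑ l, b i l * z l k := by
      rw [Matrix.mulVec, dotProduct, map_sum]
      refine sum_congr rfl fun l _ => ?_
      rw [map_mul, hBe, hz]
    rw [h2, h3, hTe, ← hder, ← hz] at h1
    exact h1
  obtain ⟨w, hw⟩ : ∃ w : Fin r → V, ∀ k, w k = ∑ i, z i k • v i := ⟨_, fun _ => rfl⟩
  have hnab : ∀ k, nabla (w k) = -(s k) • w k := by
    intro k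
    have h1 : t • nabla (w k) = t • (-(s k) • w k) := by
      rw [hw, map_sum, smul_sum]
      have h2 : ∀ i, t • nabla (z i k • v i) = (t * δ (z i k)) • v i -
          ∑ i', (b i' i * z i k) • v i' := by
        intro i
        rw [hpb.leibniz, smul_add, smul_smul, sub_eq_add_neg]
        congr 1
        rw [smul_comm, ht, hpb.conn' hα, smul_neg, smul_sum]
        congr 1
        refine sum_congr rfl fun i' _ => ?_
        rw [smul_smul, hb, mul_comm]
      simp only [h2, sum_sub_distrib]
      rw [sum_comm]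
      simp only [← sum_smul]
      rw [← sum_sub_distrib, smul_smul, smul_sum]
      refine sum_congr rfl fun i _ => ?_
      rw [← sub_smul, smul_smul, ← hsys k i]
      congr 1
      ring
    have h3 := congrArg (fun y => t⁻¹ • y) h1
    simp only [smul_smul, inv_mul_cancel₀ ht0, one_smul] at h3
    rw [h3, ← mul_assoc, inv_mul_cancel₀ ht0, one_mul]
  refine ⟨∏ k, ∏ j, (ν k j).den, w, fun k => ∏ j, (x - algebraMap R F (α j)) ^
    (((∏ k, ∏ j, (ν k j).den : ℕ) : ℚ) * ν k j).num, ?_, ?_, ?_, ?_⟩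
  · exact Finset.prod_pos fun k _ => Finset.prod_pos fun j _ => (ν k j).den_pos
  · rw [Fintype.linearIndependent_iff]
    intro c hc
    have h1 : ∑ i, (∑ k, z i k * c k) • v i = 0 := by
      rw [← hc]
      simp only [hw, smul_sum, sum_smul]
      rw [sum_comm]
      refine sum_congr rfl fun k _ => sum_congr rfl fun i _ => ?_
      rw [smul_smul, mul_comm]
    have h2 := Fintype.linearIndependent_iff.1 hpb.indep _ h1
    have h3 : z.mulVec c = 0 := funext h2
    have h4 := Matrix.eq_zero_of_mulVec_eq_zero hzdet h3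
    exact fun k => congrFun h4 k
  · intro k
    rw [hw]
    exact Submodule.sum_mem _ fun i _ => Submodule.smul_mem _ _ (Submodule.subset_span ⟨i, rfl⟩)
  · intro k
    have hu0 : (∏ j, (x - algebraMap R F (α j)) ^
        (((∏ k, ∏ j, (ν k j).den : ℕ) : ℚ) * ν k j).num) ≠ 0 :=
      prod_ne_zero_iff.2 fun j _ => zpow_ne_zero _ (hα j)
    refine ⟨hu0, ?_⟩
    rw [logDer δ univ _ (fun j _ => hα j), mul_div_cancel_left₀ _ hu0, hnab, smul_smul]
    congr 1
    rw [hs, mul_neg, mul_sum]
    congr 1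
    refine sum_congr rfl fun j _ => ?_
    have h1 : δ (x - algebraMap R F (α j)) = 1 := by
      rw [map_sub, hx, Derivation.map_algebraMap, sub_zero]
    have h2 : (((((∏ k, ∏ j, (ν k j).den : ℕ) : ℚ) * ν k j).num : ℤ) : ℚ) =
        ((∏ k, ∏ j, (ν k j).den : ℕ) : ℚ) * ν k j := by
      have h3 : (ν k j).den ∣ ∏ k, ∏ j, (ν k j).den :=
        (Finset.dvd_prod_of_mem (fun j => (ν k j).den) (mem_univ j)).trans
          (Finset.dvd_prod_of_mem (fun k => ∏ j, (ν k j).den) (mem_univ k))
      obtain ⟨c, hc⟩ := h3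
      rw [hc]
      have h4 : (((ν k j).den * c : ℕ) : ℚ) * ν k j = ((c * (ν k j).num : ℤ) : ℚ) := by
        push_cast
        have := Rat.den_mul_eq_num (ν k j)
        rw [mul_comm ((ν k j).den : ℚ) c, mul_assoc, this]
      rw [h4, Rat.num_intCast]
    have h5 : (((((∏ k, ∏ j, (ν k j).den : ℕ) : ℚ) * ν k j).num : ℤ) : F) =
        ((∏ k, ∏ j, (ν k j).den : ℕ) : F) * ((ν k j : ℚ) : F) := by
      have h6 := congrArg (fun q : ℚ => (q : F)) h2
      simpa only [Rat.cast_intCast, Rat.cast_mul, Rat.cast_natCast] using h6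
    rw [h1, h5, one_div]
    ring

/-- The transfer: the `p`-curvature of `E` is nonzero where that of the system is. -/
theorem bad_transfer (hRF : Function.Injective (algebraMap R F)) (hx : δ x = 1) (hT : T ≠ 0)
    (hE : IsModel x T nabla E) (hpb : HasPullback α A δ x nabla v) :
    ∃ g : R, g ≠ 0 ∧ ∀ (𝔪 : Ideal R) [𝔪.IsMaximal], g ∉ 𝔪 → ¬ PCurvZeroAt α A 𝔪 →
      ¬ VanishAt nabla E 𝔪 := by
  obtain ⟨g, hg, h1⟩ := transfer hRF hx hpb T hT E hE.fg hE.span
  exact ⟨g, hg, fun 𝔪 _ hm h2 h3 => h2 (h1 𝔪 hm h3)⟩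

/-- if `v` spans `V`, the algebraic sections span `V` -/
lemma full {R : Type u} [CommRing R] {F : Type v} [Field F] [Algebra R F] {V : Type w}
    [AddCommGroup V] [Module F V] {δ : Derivation R F F} {nabla : V →+ V} {r : ℕ} {v : Fin r → V}
    (hv : LinearIndependent F v) (hs : Submodule.span F (Set.range v) = ⊤)
    (h : AlgSections δ nabla v) : FullSections δ nabla r := by
  obtain ⟨N, w, u, hN, hw, -, h⟩ := h
  refine ⟨N, w, u, hN, hw, ?_, h⟩
  have b := Module.Basis.mk hv (by rw [hs])
  have : Module.Finite F V := Module.Finite.of_basis b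
  have hfr : Module.finrank F V = r := by
    rw [Module.finrank_eq_card_basis b, Fintype.card_fin]
  exact hw.span_eq_top_of_card_eq_finrank' (by rw [Fintype.card_fin, hfr])

/-- The transfer for a set of residue classes. -/
lemma Data.proportion (hd : Data δ x T nabla E v α A) {N : ℕ} {ε : ℝ}
    (h : ∃ (S : Finset (ZMod N)ˣ) (g : R) (P₀ : ℕ), ε * N.totient ≤ S.card ∧ g ≠ 0 ∧
      ∀ p : ℕ, p.Prime → P₀ < p → (∃ v ∈ S, ((p : ℕ) : ZMod N) = ((v : (ZMod N)ˣ) : ZMod N)) →
        ∀ (𝔪 : Ideal R) [𝔪.IsMaximal], (p : R) ∈ 𝔪 → g ∉ 𝔪 → ¬ PCurvZeroAt α A 𝔪) :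
    NonzeroProportion nabla E N ε := by
  obtain ⟨S, g, P₀, hS, hg, hP⟩ := h
  obtain ⟨g', hg', htr⟩ := bad_transfer hd.inj hd.coord hd.ne hd.model hd.pullback
  refine ⟨S, g * g', P₀, hS, mul_ne_zero hg hg', fun p hp hpP hpS 𝔪 h𝔪 hpm hgm => ?_⟩
  exact htr 𝔪 (fun h3 => hgm (𝔪.mul_mem_left _ h3))
    (hP p hp hpP hpS 𝔪 hpm fun h3 => hgm (𝔪.mul_mem_right _ h3))

/-- The transfer for one residue class. -/
lemma Data.badMod (hd : Data δ x T nabla E v α A) {N : ℕ}
    (h : ∃ a : ℤ, IsCoprime a (N : ℤ) ∧ ∃ g : R, g ≠ 0 ∧ ∃ P₀ : ℕ, ∀ p : ℕ, p.Prime → P₀ < p →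
      (N : ℤ) ∣ a * p + 1 → ∀ (𝔪 : Ideal R) [𝔪.IsMaximal], (p : R) ∈ 𝔪 → g ∉ 𝔪 →
        ¬ PCurvZeroAt α A 𝔪) : BadModelMod nabla E N := by
  obtain ⟨a, ha, g, hg, P₀, hP⟩ := h
  obtain ⟨g', hg', htr⟩ := bad_transfer hd.inj hd.coord hd.ne hd.model hd.pullback
  refine ⟨a, ha, g * g', mul_ne_zero hg hg', P₀, fun p hp hpP hap 𝔪 h𝔪 hpm hgm => ?_⟩
  exact htr 𝔪 (fun h3 => hgm (𝔪.mul_mem_left _ h3))
    (hP p hp hpP hap 𝔪 hpm fun h3 => hgm (𝔪.mul_mem_right _ h3))

/-- Condition (ii) for the system follows from (H). -/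
lemma Data.condII (hd : Data δ x T nabla E v α A) (hH : HypH nabla E) : CondII α A :=
  hd.pullback.condII hd.inj hd.coord hd.ne hd.model hH

end

end Pool.Agent.K7.H34.PB
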